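import Mathlib

namespace Pool.Agent.Results.MP_6a54e9_co.Counter

open Finset

/-- Ten times the coordinates of the 18 points (the first nine and the last nine form the two simplices). -/
def C : Fin 18 → Fin 12 → ℤ :=
  ![![5,5,0,0,0,0,0,0,0,0,0,0], ![5,-5,0,0,0,0,0,0,0,0,0,0],
    ![0,0,5,5,0,0,0,0,0,0,0,0], ![0,0,5,-5,0,0,0,0,0,0,0,0],
    ![0,0,0,0,5,5,0,0,0,0,0,0], ![0,0,0,0,5,-5,0,0,0,0,0,0],
    ![0,0,0,0,0,0,7,1,0,0,0,0], ![0,0,0,0,0,0,0,0,7,1,0,0], ![0,0,0,0,0,0,0,0,0,0,7,1],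
    ![7,1,0,0,0,0,0,0,0,0,0,0], ![0,0,7,1,0,0,0,0,0,0,0,0], ![0,0,0,0,7,1,0,0,0,0,0,0],
    ![0,0,0,0,0,0,5,5,0,0,0,0], ![0,0,0,0,0,0,5,-5,0,0,0,0],
    ![0,0,0,0,0,0,0,0,5,5,0,0], ![0,0,0,0,0,0,0,0,5,-5,0,0],
    ![0,0,0,0,0,0,0,0,0,0,5,5], ![0,0,0,0,0,0,0,0,0,0,5,-5]]

def D (a b : Fin 18) : ℤ := ∑ i, (C a i - C b i) ^ 2

noncomputable def P (a : Fin 18) : EuclideanSpace ℝ (Fin 12) :=
  WithLp.toLp 2 (fun i => (C a i : ℝ) / 10)

lemma dist_P (a b : Fin 18) : dist (P a) (P b) = Real.sqrt ((D a b : ℝ) / 100) := by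
  rw [EuclideanSpace.dist_eq]
  congr 1
  simp only [P, D, Real.dist_eq, sq_abs]
  push_cast
  rw [Finset.sum_div]
  refine Finset.sum_congr rfl fun i _ => ?_
  ring

lemma D_le : ∀ a b : Fin 18, D a b ≤ 100 := by decide +kernel
lemma D_pos : ∀ a b : Fin 18, a ≠ b → 0 < D a b := by decide +kernel
lemma D_eq : ∀ a b : Fin 18, a ≠ b → (a.val < 9 ↔ b.val < 9) → D a b = 100 := by decide +kernel

lemma P_inj : Function.Injective P := by
  intro a b h
  by_contra hne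
  have h1 := dist_P a b
  rw [h, dist_self] at h1
  have h2 : (0 : ℝ) < (D a b : ℝ) / 100 := by
    have : (0 : ℝ) < (D a b : ℝ) := by exact_mod_cast D_pos a b hne
    positivity
  exact (Real.sqrt_pos.2 h2).ne h1

open scoped Classical in
theorem result :
    ¬ ∀ (d k m : ℕ), 2 ≤ d → m ≤ k → k ≤ d →
      ∀ S₁ S₂ : Finset (EuclideanSpace ℝ (Fin d)),
        S₁.card = k + 1 → (∀ x ∈ S₁, ∀ y ∈ S₁, x ≠ y → dist x y = 1) →
        S₂.card = m + 1 → (∀ x ∈ S₂, ∀ y ∈ S₂, x ≠ y → dist x y = 1) →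
        (∀ x ∈ S₁ ∪ S₂, ∀ y ∈ S₁ ∪ S₂, dist x y ≤ 1) →
        max 0 ((k : ℤ) + 2 * (m : ℤ) - 2 * (d : ℤ) + 1) ≤ ((S₁ ∩ S₂).card : ℤ) := by
  intro h
  have key := h 12 8 8 (by norm_num) le_rfl (by norm_num)
    ((univ.filter fun a : Fin 18 => a.val < 9).image P)
    ((univ.filter fun a : Fin 18 => ¬ a.val < 9).image P)
    (by rw [card_image_of_injective _ P_inj]; decide)
    (by
      intro x hx y hy hxy
      obtain ⟨a, ha, rfl⟩ := mem_image.1 hx
      obtain ⟨b, hb, rfl⟩ := mem_image.1 hy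
      have hab : a ≠ b := fun e => hxy (e ▸ rfl)
      rw [dist_P, D_eq a b hab (by simp only [mem_filter] at ha hb; tauto)]
      norm_num)
    (by rw [card_image_of_injective _ P_inj]; decide)
    (by
      intro x hx y hy hxy
      obtain ⟨a, ha, rfl⟩ := mem_image.1 hx
      obtain ⟨b, hb, rfl⟩ := mem_image.1 hy
      have hab : a ≠ b := fun e => hxy (e ▸ rfl)
      rw [dist_P, D_eq a b hab (by simp only [mem_filter] at ha hb; tauto)]
      norm_num)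
    (by
      intro x hx y hy
      rw [← image_union] at hx hy
      obtain ⟨a, -, rfl⟩ := mem_image.1 hx
      obtain ⟨b, -, rfl⟩ := mem_image.1 hy
      rw [dist_P]
      rw [Real.sqrt_le_one]
      have : ((D a b : ℤ) : ℝ) ≤ 100 := by exact_mod_cast D_le a b
      linarith)
  rw [← image_inter _ _ P_inj, card_image_of_injective _ P_inj] at key
  have h0 : ((univ.filter fun a : Fin 18 => a.val < 9) ∩
      (univ.filter fun a : Fin 18 => ¬ a.val < 9)).card = 0 := by decide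
  rw [h0] at key
  norm_num at key

end Pool.Agent.Results.MP_6a54e9_co.Counter
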